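import Mathlib
import Pool.Agent.W171.LG.CoreR
import Pool.Agent.R345.AP6
import Pool.Agent.N734.AP.AllX

set_option autoImplicit false

/-! # Lenstra's density for the groups `⟨W₀, D n ^ r⟩` for all `x` with `(log N) ^ C₀ ≤ x ≤ exp ((log N) ^ B)`

Let `1 / 2 < θ < 1`, `C₀ > 1 / (2 θ - 1)` and `B < 1 / (2 (1 - θ))`.  For every finite Galois extension
`F / ℚ`, every conjugation-stable `C`, every finitely generated `W₀ ≤ ℚˣ`, every `k ≥ 1`, every nonzero
rational `D`, every `r ≥ 1` such that `ℓ ^ (ν_ℓ(k) + 1)` divides `r` for all primes `ℓ ∣ r` (every `r` if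
`k = 1`; `r = 1` for every `k`), every `ε > 0` and all large `N`: all but at most `N ^ θ` of the integers
`n ≤ N` satisfy, with `W = ⟨W₀, D n ^ r⟩`, `|S(x) - δ(F, C, W, k) π(x)| ≤ ε π(x)` for EVERY `x` with
`(log N) ^ C₀ ≤ x ≤ exp ((log N) ^ B)`, where `S(x)` is the number of primes `q ≤ x` in the set of Q1 and
`δ` is Lenstra's density.  So every power of `log N` is allowed in the exponent of the upper end, with a
power saving in the number of exceptions.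

New (files `N734/AP`): the exceptional integers are split by their `(log N) ^ (2 B)`-smooth part; the
product of `j` integers without small prime factors has at most `N ^ (j (B - 1) / (2 B) + o(j))`
factorisations, which makes the large sieve work for `j` up to `(log N) ^ (B - 1)`, where divisor bounds
fail.  Libraries: helper345 (lower end of the range), helper401 (density theorem of Chebotarev), helper171
(groups `⟨W₀, D n ^ r⟩`), helper386, helper771, helper981, helper730 (local counts), helper112 (large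
sieve). -/

namespace Pool.Agent.Results.MP_48b1c3_nt.AnyPowerOfLog

open NumberField Finset Filter Classical
open Pool.Agent.W171.LG (coreR few_nongen Gen Sc tW DR gp_eqR)
open Pool.Agent.H771R4.SE (cntE Dat)
open Pool.Agent.R345.AP (badZ allX4)
open Pool.Agent.N734.AP (badU allU)
open Pool.Agent.H386R2.Artin (tlog)

/-- the number of primes `q ≤ x` in the set of Q1 -/
noncomputable def S (F : IntermediateField ℚ (AlgebraicClosure ℚ)) [NumberField F]
    (C : Set (F ≃ₐ[ℚ] F)) (W : Subgroup ℚˣ) (k x : ℕ) : ℕ :=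
  Nat.card {q : ℕ // q ≤ x ∧ q.Prime ∧
    (∃ σ ∈ C, ∃ Q : Ideal (𝓞 F), Q.IsPrime ∧
        Q.comap (algebraMap ℤ (𝓞 F)) = Ideal.span {(q : ℤ)} ∧
        ∀ a b : 𝓞 F, (b : F) = σ (a : F) → b - a ^ q ∈ Q) ∧
    (∀ w ∈ W, padicValRat q (w : ℚ) = 0) ∧
    (Subgroup.closure {u : (ZMod q)ˣ | ∃ w ∈ W,
        (((w : ℚ).num : ℤ) : ZMod q) = (u : ZMod q) * (((w : ℚ).den : ℕ) : ZMod q)}).index ∣ k}

/-- Lenstra's density -/
noncomputable def δ (F : IntermediateField ℚ (AlgebraicClosure ℚ)) [NumberField F]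
    (C : Set (F ≃ₐ[ℚ] F)) (W : Subgroup ℚˣ) (k : ℕ) : ℝ :=
  ∑' n : ℕ, (ArithmeticFunction.moebius n : ℝ) *
    (Nat.card {σ : F ≃ₐ[ℚ] F // σ ∈ C ∧ ∀ y : F,
        (y : AlgebraicClosure ℚ) ∈ IntermediateField.adjoin ℚ
          {z : AlgebraicClosure ℚ | ∃ w ∈ W,
            z ^ (∏ l ∈ n.primeFactors, l ^ (k.factorization l + 1)) =
              algebraMap ℚ (AlgebraicClosure ℚ) (w : ℚ)} → σ y = y} : ℝ) /
    (Module.finrank ℚ ↥(F ⊔ IntermediateField.adjoin ℚ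
          {z : AlgebraicClosure ℚ | ∃ w ∈ W,
            z ^ (∏ l ∈ n.primeFactors, l ^ (k.factorization l + 1)) =
              algebraMap ℚ (AlgebraicClosure ℚ) (w : ℚ)}) : ℝ)

/-- the conditions on the exponents are open -/
lemma smaller (θ C₀ B : ℝ) (hθ : 1 / 2 < θ) (hθ1 : θ < 1) (hC : 1 / (2 * θ - 1) < C₀)
    (hB : B < 1 / (2 * (1 - θ))) :
    ∃ B' θ' : ℝ, B ≤ B' ∧ 1 < B' ∧ 1 / 2 < θ' ∧ θ' < θ ∧ 1 < C₀ * (2 * θ' - 1) ∧
      2 * B' * (1 - θ') < 1 := by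
  have h2θ : 0 < 2 * θ - 1 := by linarith
  have h1θ : 0 < 1 - θ := by linarith
  have hC0 : 0 < C₀ := lt_trans (by positivity) hC
  obtain ⟨B', hBB', hB'1, hB'θ⟩ : ∃ B' : ℝ, B ≤ B' ∧ 1 < B' ∧ B' < 1 / (2 * (1 - θ)) := by
    have h1 : 1 < 1 / (2 * (1 - θ)) := by
      rw [lt_div_iff₀ (by positivity)]
      linarith
    obtain ⟨B1, h2, h3⟩ := exists_between h1
    exact ⟨max B B1, le_max_left _ _, lt_of_lt_of_le h2 (le_max_right _ _), max_lt hB h3⟩
  have hB'0 : 0 < B' := by linarith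
  have h1 : 1 / 2 + 1 / (2 * C₀) < θ := by
    have h3 : 1 / (2 * C₀) < θ - 1 / 2 := by
      rw [div_lt_iff₀ h2θ] at hC
      rw [div_lt_iff₀ (by positivity)]
      linarith
    linarith
  have h2 : 1 - 1 / (2 * B') < θ := by
    have h3 : 1 - θ < 1 / (2 * B') := by
      rw [lt_div_iff₀ (by positivity)] at hB'θ ⊢
      linarith
    linarith
  obtain ⟨θ', h4, h5⟩ := exists_between (max_lt h1 h2)
  obtain ⟨h6, h7⟩ := max_lt_iff.1 h4
  refine ⟨B', θ', hBB', hB'1, ?_, h5, ?_, ?_⟩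
  · have : 0 < 1 / (2 * C₀) := by positivity
    linarith
  · have h8 : 1 / (2 * C₀) < θ' - 1 / 2 := by linarith
    rw [div_lt_iff₀ (by positivity)] at h8
    linarith
  · have h8 : 1 - θ' < 1 / (2 * B') := by linarith
    rw [lt_div_iff₀ (by positivity)] at h8
    linarith

theorem result (θ C₀ B : ℝ) (hθ : 1 / 2 < θ) (hθ1 : θ < 1) (hC₀ : 1 / (2 * θ - 1) < C₀)
    (hB : B < 1 / (2 * (1 - θ))) :
      ∀ (F : IntermediateField ℚ (AlgebraicClosure ℚ)) [NumberField F] [IsGalois ℚ F]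
        (C : Set (F ≃ₐ[ℚ] F)) (W₀ : Subgroup ℚˣ) (k : ℕ) (D : ℚˣ) (r : ℕ),
        (∀ σ ∈ C, ∀ τ : F ≃ₐ[ℚ] F, τ * σ * τ⁻¹ ∈ C) → W₀.FG → 0 < k →
        0 < r → (∀ l : ℕ, l.Prime → l ∣ r → l ^ (k.factorization l + 1) ∣ r) →
        ∀ ε : ℝ, 0 < ε → ∃ N₀ : ℕ, ∀ N : ℕ, N₀ ≤ N →
          (((Finset.Icc 1 N).filter (fun n : ℕ =>
            ∃ x : ℕ, ((Real.log N) ^ C₀ ≤ x ∧ (x : ℝ) ≤ Real.exp ((Real.log N) ^ B)) ∧
              ε * (Nat.primeCounting x : ℝ) <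
                |(S F C (W₀ ⊔ Subgroup.closure {w : ℚˣ | (w : ℚ) = (D : ℚ) * (n : ℚ) ^ r}) k x : ℝ) -
                  δ F C (W₀ ⊔ Subgroup.closure {w : ℚˣ | (w : ℚ) = (D : ℚ) * (n : ℚ) ^ r}) k *
                    (Nat.primeCounting x : ℝ)|)).card : ℝ) ≤ (N : ℝ) ^ θ := by
  obtain ⟨B', θ', hBB', hB'1, hθ'2, hθ'θ, hCθ', hB'θ'⟩ := smaller θ C₀ B hθ hθ1 hC₀ hB
  obtain ⟨c, hc, hall⟩ := allX4 θ' C₀ hθ'2 (by linarith) hCθ'
  have hC₀ : 0 < C₀ := by
    have h1 : 0 < 2 * θ - 1 := by linarith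
    exact lt_trans (by positivity) hC₀
  intro F _ _ C W₀ k D r hC hW₀ hk hr hrk ε hε
  obtain ⟨d, hd⟩ := coreR F C W₀ k D hC hW₀ hk.ne' hr hrk
  obtain ⟨P0, x0, hcore⟩ := hd ε hε
  obtain ⟨N₁, hN₁⟩ := hall d (ε / 2) (by positivity)
  obtain ⟨N₅, hN₅⟩ := allU θ' B' c (by linarith) hB'1 hB'θ' hc d (ε / 2) (by positivity)
  obtain ⟨K, hK, hfew⟩ := few_nongen P0
  set s : ℝ := (θ - 1 / 2) / 2 with hs
  have hs0 : 0 < s := by
    rw [hs]
    linarith
  have e1 : ∀ᶠ N : ℝ in atTop, 4 ≤ N ^ (θ - θ') :=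
    (tendsto_rpow_atTop (by linarith)).eventually_ge_atTop _
  have e2 : ∀ᶠ N : ℝ in atTop, 4 * K ≤ N ^ s :=
    (tendsto_rpow_atTop hs0).eventually_ge_atTop _
  have e3 : ∀ᶠ N : ℝ in atTop, Real.log N ≤ N ^ s := by
    have h := (isLittleO_log_rpow_atTop (r := s) hs0).bound (c := 1) (by norm_num)
    filter_upwards [h, eventually_gt_atTop 1] with x h1 h2
    rw [Real.norm_of_nonneg (Real.log_nonneg h2.le), Real.norm_of_nonneg (by positivity),
      one_mul] at h1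
    exact h1
  obtain ⟨N₂, hN₂⟩ := eventually_atTop.1 ((tendsto_natCast_atTop_atTop (R := ℝ)).eventually
    ((e1.and e2).and e3))
  have e4 : ∀ᶠ N : ℕ in atTop, (x0 : ℝ) ≤ (Real.log N) ^ C₀ :=
    ((tendsto_rpow_atTop hC₀).comp tlog).eventually_ge_atTop _
  obtain ⟨N₃, hN₃⟩ := eventually_atTop.1 e4
  refine ⟨max (max N₁ N₂) (max N₃ (max N₅ 3)), fun N hN => ?_⟩
  have hA1 : N₁ ≤ N := (le_max_left _ _).trans ((le_max_left _ _).trans hN)
  have hA2 : N₂ ≤ N := (le_max_right _ _).trans ((le_max_left _ _).trans hN)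
  have hA3 : N₃ ≤ N := (le_max_left _ _).trans ((le_max_right _ _).trans hN)
  have hA5 : N₅ ≤ N :=
    (le_max_left _ _).trans ((le_max_right _ _).trans ((le_max_right _ _).trans hN))
  have hA6 : 3 ≤ N :=
    (le_max_right _ _).trans ((le_max_right _ _).trans ((le_max_right _ _).trans hN))
  have hA4 : 2 ≤ N := by omega
  have hlogN1 : 1 ≤ Real.log N := by
    rw [Real.le_log_iff_exp_le (by exact_mod_cast (by omega : 0 < N))]
    have h1 : Real.exp 1 < 2.7182818286 := Real.exp_one_lt_d9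
    have h2 : (3 : ℝ) ≤ N := by exact_mod_cast hA6
    linarith
  have hN2 : (2 : ℝ) ≤ N := by exact_mod_cast hA4
  have hN0 : (0 : ℝ) < N := by linarith
  have hN1 : (1 : ℝ) ≤ N := by linarith
  obtain ⟨⟨k1, k2⟩, k3⟩ := hN₂ N hA2
  have k4 := hN₁ N hA1
  have k6 := hN₅ d rfl rfl rfl N hA5
  have k5 := hfew N (by omega)
  set BB := (Finset.Icc 1 N).filter (fun n : ℕ =>
            ∃ x : ℕ, ((Real.log N) ^ C₀ ≤ x ∧ (x : ℝ) ≤ Real.exp ((Real.log N) ^ B)) ∧
              ε * (Nat.primeCounting x : ℝ) <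
                |(S F C (W₀ ⊔ Subgroup.closure {w : ℚˣ | (w : ℚ) = (D : ℚ) * (n : ℚ) ^ r}) k x : ℝ) -
                  δ F C (W₀ ⊔ Subgroup.closure {w : ℚˣ | (w : ℚ) = (D : ℚ) * (n : ℚ) ^ r}) k *
                    (Nat.primeCounting x : ℝ)|) with hBB
  have hsub : BB ⊆ (badZ d (ε / 2) C₀ c N ∪ badU d (ε / 2) c B' N) ∪
      (Icc 1 N).filter (fun n => ¬ Gen P0 n) := by
    intro n hn
    rw [hBB, Finset.mem_filter] at hn
    obtain ⟨hnI, x, ⟨hx1, hx2⟩, hx3⟩ := hn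
    have hn0 : n ≠ 0 := by
      rw [Finset.mem_Icc] at hnI
      omega
    rw [Finset.mem_union]
    by_cases hG : Gen P0 n
    · left
      have hx0x : x0 ≤ x := by exact_mod_cast (hN₃ N hA3).trans hx1
      rw [gp_eqR W₀ D r hn0] at hx3
      have hx4 := hcore n hn0 hG x hx0x hx3
      rw [Finset.mem_union]
      rcases le_total (x : ℝ) (Real.exp ((Real.log N) ^ (1 + c))) with h6 | h6
      · left
        rw [badZ, Finset.mem_filter]
        exact ⟨hnI, x, hx1, h6, hx4⟩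
      · right
        rw [badU, Finset.mem_filter]
        refine ⟨hnI, x, h6, hx2.trans (Real.exp_le_exp.2 ?_), hx4⟩
        exact Real.rpow_le_rpow_of_exponent_le hlogN1 hBB'
    · right
      rw [Finset.mem_filter]
      exact ⟨hnI, hG⟩
  have h4 := (card_le_card hsub).trans ((card_union_le _ _).trans
    (Nat.add_le_add_right (card_union_le _ _) _))
  have h5 : (#BB : ℝ) ≤ ((#(badZ d (ε / 2) C₀ c N) : ℝ) + (#(badU d (ε / 2) c B' N) : ℝ)) +
      (#((Icc 1 N).filter (fun n => ¬ Gen P0 n)) : ℝ) := by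
    exact_mod_cast h4
  have h6 : (N : ℝ) ^ θ' ≤ (N : ℝ) ^ θ / 4 := by
    rw [le_div_iff₀ (by norm_num : (0 : ℝ) < 4)]
    calc (N : ℝ) ^ θ' * 4 ≤ (N : ℝ) ^ θ' * (N : ℝ) ^ (θ - θ') := by gcongr
      _ = (N : ℝ) ^ θ := by
          rw [← Real.rpow_add hN0]
          ring_nf
  have h7 : K * (√(N : ℝ) * (1 + Real.log N)) ≤ (N : ℝ) ^ θ / 2 := by
    have h8 : 1 + Real.log N ≤ 2 * (N : ℝ) ^ s := by
      have : (1 : ℝ) ≤ (N : ℝ) ^ s := Real.one_le_rpow hN1 hs0.le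
      linarith
    have h9 : K ≤ (N : ℝ) ^ s / 4 := by linarith
    have h10 : 0 ≤ 1 + Real.log N := by
      have := Real.log_nonneg hN1
      linarith
    calc K * (√(N : ℝ) * (1 + Real.log N))
        ≤ ((N : ℝ) ^ s / 4) * (√(N : ℝ) * (2 * (N : ℝ) ^ s)) := by gcongr
      _ = (N : ℝ) ^ θ / 2 := by
          rw [Real.sqrt_eq_rpow]
          have : (N : ℝ) ^ θ = (N : ℝ) ^ s * (N : ℝ) ^ (1 / 2 : ℝ) * (N : ℝ) ^ s := by
            rw [← Real.rpow_add hN0, ← Real.rpow_add hN0]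
            congr 1
            rw [hs]
            ring
          rw [this]
          ring
  linarith

end Pool.Agent.Results.MP_48b1c3_nt.AnyPowerOfLog
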