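import Pool.Agent.N193.PS.Eqs3
import Pool.Agent.Results.MP_48b1c3_nt.EntangledOnAverage
import Pool.Agent.Results.MP_48b1c3_nt.FewExceptions

/-!
# Lenstra's density for almost all groups generated by values of functions of non-integral index

From Mathlib: `ContDiffAt ℝ ⊤`: infinitely differentiable at a point; `iteratedDeriv m f`: the derivative of order `m`;
`⌊y⌋₊`: the integer part of `y`, and `0` for `y < 0`.

Method: the characteristic function of the integer part of `f n` is small at all frequencies which are not close to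
integers (van der Corput differencing and the inequality of Kusmin and Landau on dyadic blocks for all orders of
differencing, a discrete Fejer kernel for the passage to integer parts), and the values are not concentrated on short
intervals. The passage from the
characteristic function to sums over primes of functions of residues, for almost all values, is from the starting files
(`Pool.Agent.R459.Eq`). The density series and the counting functions of the primes are those of the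
starting results `EntangledOnAverage` and `FewExceptions` of this problem.
-/

set_option autoImplicit false

namespace Pool.Agent.Results.MP_48b1c3_nt.NonIntegralOrderGenerators

open Finset Filter NumberField
open Pool.Agent.R459.EqD (cntZ)
open Pool.Agent.H771R4.SE (Dat cntE)

/-- `f` is smoothly varying of index `c`: it is infinitely differentiable and positive for large arguments, and
`t ^ m f⁽ᵐ⁾(t) / f(t) → c (c - 1) ... (c - m + 1)` for every `m`. -/
def SmoothlyVarying (c : ℝ) (f : ℝ → ℝ) : Prop :=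
  (∃ t₀ : ℝ, ∀ t > t₀, ContDiffAt ℝ ((⊤ : ℕ∞) : WithTop ℕ∞) f t ∧ 0 < f t) ∧
  ∀ m : ℕ, Tendsto (fun t => t ^ m * iteratedDeriv m f t / f t) atTop (nhds (∏ i ∈ range m, (c - i)))

open Classical in
/-- Almost all the integers `n = c₀ + κ ⌊f m⌋`, `1 ≤ m ≤ M`, up to a proportion of at most `τ` of the `m`, have the
property `P`. -/
def Almost (f : ℝ → ℝ) (M : ℕ) (κ c₀ : ℤ) (τ : ℝ) (P : ℤ → Prop) : Prop :=
  (((Icc 1 M).filter (fun m : ℕ => ¬ P (c₀ + κ * (⌊f m⌋₊ : ℕ)))).card : ℝ) ≤ τ * M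

lemma almost_of {f : ℝ → ℝ} {M : ℕ} {κ c₀ : ℤ} {τ : ℝ} {P Q : ℤ → Prop}
    (h : Pool.Agent.N193.PS.AlmostV f M κ c₀ τ P) (hPQ : ∀ n, P n → Q n) : Almost f M κ c₀ τ Q := by
  have h1 := Pool.Agent.N193.PS.AlmostV.mono h hPQ
  unfold Pool.Agent.N193.PS.AlmostV at h1
  unfold Almost
  convert h1

/-- `|cf x - δ π(x)| ≤ ε π(x)` for EVERY `x ≥ X` with `x ^ W ≤ y`. -/
def Holds (cf : ℕ → ℕ) (δ ε : ℝ) (X W : ℕ) (y : ℝ) : Prop :=
  ∀ x : ℕ, X ≤ x → (x : ℝ) ^ W ≤ y → |(cf x : ℝ) - δ * (Nat.primeCounting x : ℝ)| ≤ ε * (Nat.primeCounting x : ℝ)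

/-- the integer `n` is positive and exactly divisible by a prime `p > P` -/
def Generic (P : ℕ) (n : ℤ) : Prop := 0 < n ∧ ∃ p : ℕ, p.Prime ∧ P < p ∧ (p : ℤ) ∣ n ∧ ¬ ((p : ℤ) ^ 2 ∣ n)

lemma cntZ_nat (d : Dat) (n x : ℕ) : cntZ d (n : ℤ) x = cntE d n x := by
  classical
  unfold cntZ cntE Pool.Agent.H386R2.Artin.PP
  rw [filter_filter]
  apply congrArg Finset.card
  apply Finset.filter_congr
  intro p _
  rw [Int.cast_natCast]


/-- **(1)** Let `f` be smoothly varying of an index `c > 0` which is not an integer. There is `W` such that for all `κ ≠ 0`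
the following two assertions hold.

First, let `q ≥ 1`, let `A` be a set of residue classes prime to `q`, and let `m ≥ 1`, `D ≠ 0` and `ε > 0`. There are `C` and
`X₀` such that for all `X ≥ X₀`, all `M` and ALL integers `c₀`, almost all the integers `n = c₀ + κ ⌊f i⌋`, `i ≤ M`, with a
proportion of at most `C log X / X` of exceptions, satisfy: for EVERY `x ≥ X` with `x ^ W ≤ f M`, the number of the primes
`p ≤ x` whose class modulo `q` belongs to `A` and modulo which the index of `⟨D n ^ 2⟩` divides `m` is `δ π(x)` up to an error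
of at most `ε π(x)`, where `δ = δ q A m D` is Lenstra's series (with the entanglement of the quadratic field of `D`).

Second, let `(F, C, m)` be as in Q1, let `W₀` be a finitely generated subgroup of `ℚˣ`, `D ∈ ℚˣ`, and `r ≥ 1` such that
`ℓ ^ (ν_ℓ(m) + 1)` divides `r` for all primes `ℓ ∣ r` (every `r` if `m = 1`), `ε > 0`. There are `C'`, `P` and `X₀` such
that for all `X ≥ X₀`, all `M` and all integers `c₀` almost all the integers `n = c₀ + κ ⌊f i⌋`, `i ≤ M`, with a proportion of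
at most `C' log X / X` of exceptions, have the following property, if they are positive and exactly divisible by some prime
`p > P`: for EVERY `x ≥ X` with `x ^ W ≤ f M`, the number of the primes up to `x` in `𝒮(F, C, ⟨W₀, D n ^ r⟩, m)` is
`δ(F, C, ⟨W₀, D n ^ r⟩, m) π(x)` up to an error of at most `ε π(x)`.

**(2)** Part (1) applies to all the functions `f t = ∑ a z t ^ z.1 (log t) ^ z.2` (finite sums) with a leading term `z₀`
whose coefficient is positive and whose exponent `c = z₀.1` is positive and not an integer; for example to `n ^ c`. -/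
theorem result :
    (∀ (c : ℝ) (f : ℝ → ℝ), 0 < c → (∀ m : ℕ, c ≠ m) → SmoothlyVarying c f → ∃ W : ℕ, 1 ≤ W ∧ ∀ κ : ℤ, κ ≠ 0 →
      (∀ (q : ℕ) [NeZero q] (A : Finset (ZMod q)ˣ) (m : ℕ), 1 ≤ m → ∀ D : ℤ, D ≠ 0 → ∀ ε : ℝ, 0 < ε →
        ∃ (C : ℝ) (X₀ : ℕ), ∀ X : ℕ, X₀ ≤ X → ∀ (M : ℕ) (c₀ : ℤ),
          Almost f M κ c₀ (C * (Real.log X / X)) (fun n =>
            Holds (EntangledOnAverage.S q A m (D * n ^ 2)) (EntangledOnAverage.δ q A m D) ε X W (f M))) ∧
      (∀ (F : IntermediateField ℚ (AlgebraicClosure ℚ)) [NumberField F] [IsGalois ℚ F]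
        (C : Set (F ≃ₐ[ℚ] F)) (W₀ : Subgroup ℚˣ) (m : ℕ) (D : ℚˣ) (r : ℕ),
        (∀ σ ∈ C, ∀ τ : F ≃ₐ[ℚ] F, τ * σ * τ⁻¹ ∈ C) → W₀.FG → 0 < m →
        0 < r → (∀ l : ℕ, l.Prime → l ∣ r → l ^ (m.factorization l + 1) ∣ r) →
        ∀ ε : ℝ, 0 < ε → ∃ (C' : ℝ) (P X₀ : ℕ), ∀ X : ℕ, X₀ ≤ X → ∀ (M : ℕ) (c₀ : ℤ),
          Almost f M κ c₀ (C' * (Real.log X / X)) (fun n => Generic P n →
            Holds (FewExceptions.S F C (W₀ ⊔ Subgroup.closure {w : ℚˣ | (w : ℚ) = (D : ℚ) * (n : ℚ) ^ r}) m)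
              (FewExceptions.δ F C (W₀ ⊔ Subgroup.closure {w : ℚˣ | (w : ℚ) = (D : ℚ) * (n : ℚ) ^ r}) m) ε X W
              (f M)))) ∧
    (∀ (F : Finset (ℝ × ℝ)) (a : ℝ × ℝ → ℝ) (z₀ : ℝ × ℝ), z₀ ∈ F → 0 < a z₀ →
      (∀ z ∈ F, z ≠ z₀ → z.1 < z₀.1 ∨ z.1 = z₀.1 ∧ z.2 < z₀.2) →
      SmoothlyVarying z₀.1 (fun t => ∑ z ∈ F, a z * t ^ z.1 * Real.log t ^ z.2)) := by
  classical
  refine ⟨fun c f hc hn hf => ?_, fun F a z₀ h1 h2 h3 => Pool.Agent.N193.PS.gp_sv F a z₀ h1 h2 h3⟩
  obtain ⟨W, hW, H⟩ := Pool.Agent.N193.PS.sv_dat c f hc hn hf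
  refine ⟨W, hW, fun κ hκ => ⟨fun q _ A m hm D hD ε hε => ?_, fun F _ _ C W₀ m D r hC hW₀ hm hr hrm ε hε => ?_⟩⟩
  · have hfD : NeZero (Pool.Agent.H981R3.LN2.fD q D) := ⟨Pool.Agent.H981R3.LN2.fD_ne hD⟩
    obtain ⟨C, X₀, _, _, h⟩ := H κ hκ (Pool.Agent.H981R3.LN2.dLen2 q A m (by omega) D hD) ε hε
    refine ⟨C, X₀, fun X hX M c₀ => ?_⟩
    refine almost_of (h X hX M c₀) fun n hn x hx1 hx2 => ?_
    have h5 := hn x hx1 hx2
    have e : EntangledOnAverage.S q A m (D * n ^ 2) x =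
        cntZ (Pool.Agent.H981R3.LN2.dLen2 q A m (by omega) D hD) n x := by
      unfold cntZ Pool.Agent.H386R2.Artin.PP EntangledOnAverage.S
      rw [filter_filter]
      apply congrArg Finset.card
      apply Finset.filter_congr_decidable _ _ _ |>.symm.trans
      apply Finset.filter_congr
      intro p _
      simp only [Pool.Agent.H981R3.LN2.dLen2, Int.cast_mul, Int.cast_pow]
      rfl
    rw [e, EntangledOnAverage.δ_eq q A m D]
    exact h5
  · obtain ⟨d, hd⟩ := Pool.Agent.W171.LG.coreR F C W₀ m D hC hW₀ hm.ne' hr hrm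
    obtain ⟨P0, x0, hcore⟩ := hd ε hε
    obtain ⟨C', X₀, _, _, h⟩ := H κ hκ d (ε / 2) (by positivity)
    refine ⟨C', P0, X₀ + x0, fun X hX M c₀ => ?_⟩
    refine almost_of (h X (by omega) M c₀) fun n hn hgen x hx1 hx2 => ?_
    obtain ⟨hn0, p, hp, hpP, hpn, hp2⟩ := hgen
    obtain ⟨n', rfl⟩ : ∃ n' : ℕ, n = n' := ⟨n.toNat, (Int.toNat_of_nonneg hn0.le).symm⟩
    have hn0' : n' ≠ 0 := by omega
    have hG : Pool.Agent.W171.LG.Gen P0 n' := ⟨p, hp, hpP, by exact_mod_cast hpn, fun h => hp2 (by exact_mod_cast h)⟩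
    by_contra hcon
    push Not at hcon
    have h5 := hn x hx1 hx2
    rw [cntZ_nat] at h5
    rw [Int.cast_natCast, Pool.Agent.W171.LG.gp_eqR W₀ D r hn0'] at hcon
    have h6 := hcore n' hn0' hG x (by omega) hcon
    linarith

end Pool.Agent.Results.MP_48b1c3_nt.NonIntegralOrderGenerators
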