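import Pool.Agent.N384.MQ.Eqs3
import Pool.Agent.N384.MQ.Gen
import Pool.Agent.Results.MP_48b1c3_nt.EntangledOnAverage
import Pool.Agent.Results.MP_48b1c3_nt.FewExceptions

/-!
# Lenstra's density for almost all groups generated by members of families of residues with small Fourier coefficients

From Mathlib: `ZMod.stdAddChar`: the additive character `j ↦ exp (2 π i j / q)` of the integers modulo `q`; `ZMod.val`: the
least residue.

Method: a family of residues modulo `q` with small Fourier coefficients has small exponential sums at all real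
frequencies which are not close to integers. The passage from such exponential sums to sums over primes of functions of
residues, for almost all members, is from the starting files (`Pool.Agent.R459.Eq`; the density series and
the counting functions are those of the starting results `EntangledOnAverage` and `FewExceptions` of this problem). Examples: a lemma of Ajtai, Iwaniec,
Komlos, Pintz and Szemeredi on quotients by small primes, the Stepanov type lemma of Heath-Brown and Konyagin for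
subgroups (library `H435R3.HBK`, `N825.FC`), and Weyl sums without losses (library `H373R2.NB`).
-/

set_option autoImplicit false

namespace Pool.Agent.Results.MP_48b1c3_nt.ResidueFamilies

open Finset Filter NumberField
open Pool.Agent.R459.EqD (cntZ)
open Pool.Agent.H771R4.SE (Dat cntE)

/-- The Fourier coefficients of the residues `y i`, `i ∈ s`, modulo `q` at the nonzero frequencies are at most
`η` times the number of the residues: `|∑ i ∈ s, e(h y_i / q)| ≤ η |s|` for all `h ≠ 0` modulo `q`. -/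
def Flat {ι : Type} (q : ℕ) [NeZero q] (η : ℝ) (s : Finset ι) (y : ι → ZMod q) : Prop :=
  ∀ h : ZMod q, h ≠ 0 → ‖∑ i ∈ s, (ZMod.stdAddChar (h * y i) : ℂ)‖ ≤ η * s.card

open Classical in
/-- Almost all the integers `n = c₀ + κ y_i`, `i ∈ s` (with the least residues `0 ≤ y_i < q`), up to a proportion of at most
`τ` of the `i`, have the property `P`. -/
def Almost {ι : Type} {q : ℕ} (s : Finset ι) (y : ι → ZMod q) (κ c₀ : ℤ) (τ : ℝ) (P : ℤ → Prop) : Prop :=
  ((s.filter (fun i => ¬ P (c₀ + κ * ((y i).val : ℕ)))).card : ℝ) ≤ τ * s.card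

lemma almost_of {ι : Type} {q : ℕ} {s : Finset ι} {y : ι → ZMod q} {κ c₀ : ℤ} {τ : ℝ} {P Q : ℤ → Prop}
    (h : Pool.Agent.N384.MQ.AlmostF s y κ c₀ τ P) (hPQ : ∀ n, P n → Q n) : Almost s y κ c₀ τ Q := by
  have h1 := Pool.Agent.N384.MQ.AlmostF.mono h hPQ
  unfold Pool.Agent.N384.MQ.AlmostF at h1
  unfold Almost
  convert h1

lemma fam_of {ι : Type} {q : ℕ} [NeZero q] {s : Finset ι} {y : ι → ZMod q} {Z : ℝ} (hZ : 0 < Z) (hZq : Z ≤ q)
    (h : Flat q (1 / (Z * (42 + 3 * Real.log q))) s y) :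
    Pool.Agent.N384.MQ.Fam q s y (Z * (42 + 3 * Real.log q)) Z :=
  ⟨mul_pos hZ (by have := Real.log_natCast_nonneg q; linarith), h, hZq, le_rfl⟩

/-- `|cf x - δ π(x)| ≤ ε π(x)` for EVERY `x ≥ X` with `x ^ W ≤ y`. -/
def Holds (cf : ℕ → ℕ) (δ ε : ℝ) (X W : ℕ) (y : ℝ) : Prop :=
  ∀ x : ℕ, X ≤ x → (x : ℝ) ^ W ≤ y → |(cf x : ℝ) - δ * (Nat.primeCounting x : ℝ)| ≤ ε * (Nat.primeCounting x : ℝ)

/-- the integer `n` is positive and exactly divisible by a prime `p > P` -/
def Generic (P : ℕ) (n : ℤ) : Prop := 0 < n ∧ ∃ p : ℕ, p.Prime ∧ P < p ∧ (p : ℤ) ∣ n ∧ ¬ ((p : ℤ) ^ 2 ∣ n)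

lemma cntZ_nat (d : Dat) (n x : ℕ) : cntZ d (n : ℤ) x = cntE d n x := by
  classical
  unfold cntZ cntE Pool.Agent.H386R2.Artin.PP
  rw [filter_filter]
  apply congrArg Finset.card
  apply Finset.filter_congr
  intro p _
  rw [Int.cast_natCast]

/-- **(1)** There is `W` such that for all `κ ≠ 0` the following two assertions hold for all finite families `y i`, `i ∈ s`, of
residues modulo any `Q` whose Fourier coefficients at the nonzero frequencies are at most `|s| / (Z (42 + 3 log Q))`, where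
`0 < Z ≤ Q`.

First, let `q ≥ 1`, let `A` be a set of residue classes prime to `q`, and let `m ≥ 1`, `D ≠ 0` and `ε > 0`. There are `C` and
`X₀` such that for all `X ≥ X₀`, all such families and ALL integers `c₀`, almost all the integers `n = c₀ + κ y_i`, `i ∈ s`,
with a proportion of at most `C log X / X` of exceptions, satisfy: for EVERY `x ≥ X` with `x ^ W ≤ Z`, the number of the primes
`p ≤ x` whose class modulo `q` belongs to `A` and modulo which the index of `⟨D n ^ 2⟩` divides `m` is `δ π(x)` up to an error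
of at most `ε π(x)`, where `δ = δ q A m D` is Lenstra's series (with the entanglement of the quadratic field of `D`).

Second, let `(F, C, m)` be as in Q1, let `W₀` be a finitely generated subgroup of `ℚˣ`, `D ∈ ℚˣ`, and `r ≥ 1` such that
`ℓ ^ (ν_ℓ(m) + 1)` divides `r` for all primes `ℓ ∣ r` (every `r` if `m = 1`), `ε > 0`. There are `C'`, `P` and `X₀` such
that for all `X ≥ X₀`, all such families and all integers `c₀` almost all the integers `n = c₀ + κ y_i`, `i ∈ s`, with a
proportion of at most `C' log X / X` of exceptions, have the following property, if they are positive and exactly divisible by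
some prime `p > P`: for EVERY `x ≥ X` with `x ^ W ≤ Z`, the number of the primes up to `x` in `𝒮(F, C, ⟨W₀, D n ^ r⟩, m)` is
`δ(F, C, ⟨W₀, D n ^ r⟩, m) π(x)` up to an error of at most `ε π(x)`.

**(2)**, **(3)** Examples. All the Fourier coefficients at nonzero frequencies are at most `|s| / K` for the following families
of residues modulo primes `p` (all large primes in (2)), for ALL `K ≥ 1`:
* the quotients `j / r` of the integers `0 ≤ j < S` by the primes `r ≤ R`, if `K log ^ 4 p ≤ R < p` and `R ^ 2 ≤ S`; thus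
  (1) with `Z = log ^ B p` applies to such explicit sets with only `log ^ (3 B + 20) p` members;
* the cosets of all subgroups of the multiplicative group of an order of at least `5 p ^ (3/8) K ^ 3`;
* the residues `a b + g(a) + k(b)`, `a ∈ A`, `b ∈ B`, for arbitrary sets with `|A| |B| ≥ p K ^ 2` and arbitrary
  functions `g` and `k`;
* the values `f(n)`, `0 ≤ n < x`, of all integer polynomials of degree `d` whose leading coefficient is not divisible by
  `p`, if `p ≥ C K ^ C` and `x ^ d ≥ C K ^ C p`, where `C` depends on `d`.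
In the last three examples `K`, and thus `Z`, can be a power of `p`. -/
theorem result :
    (∃ W : ℕ, 1 ≤ W ∧ ∀ κ : ℤ, κ ≠ 0 →
      (∀ (q : ℕ) [NeZero q] (A : Finset (ZMod q)ˣ) (m : ℕ), 1 ≤ m → ∀ D : ℤ, D ≠ 0 → ∀ ε : ℝ, 0 < ε →
        ∃ (C : ℝ) (X₀ : ℕ), ∀ X : ℕ, X₀ ≤ X →
          ∀ (ι : Type) (Q : ℕ) [NeZero Q] (s : Finset ι) (y : ι → ZMod Q) (Z : ℝ), 0 < Z → Z ≤ Q →
          Flat Q (1 / (Z * (42 + 3 * Real.log Q))) s y → ∀ c₀ : ℤ,
          Almost s y κ c₀ (C * (Real.log X / X)) (fun n =>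
            Holds (EntangledOnAverage.S q A m (D * n ^ 2)) (EntangledOnAverage.δ q A m D) ε X W (Z))) ∧
      (∀ (F : IntermediateField ℚ (AlgebraicClosure ℚ)) [NumberField F] [IsGalois ℚ F]
        (C : Set (F ≃ₐ[ℚ] F)) (W₀ : Subgroup ℚˣ) (m : ℕ) (D : ℚˣ) (r : ℕ),
        (∀ σ ∈ C, ∀ τ : F ≃ₐ[ℚ] F, τ * σ * τ⁻¹ ∈ C) → W₀.FG → 0 < m →
        0 < r → (∀ l : ℕ, l.Prime → l ∣ r → l ^ (m.factorization l + 1) ∣ r) →
        ∀ ε : ℝ, 0 < ε → ∃ (C' : ℝ) (P X₀ : ℕ), ∀ X : ℕ, X₀ ≤ X →
          ∀ (ι : Type) (Q : ℕ) [NeZero Q] (s : Finset ι) (y : ι → ZMod Q) (Z : ℝ), 0 < Z → Z ≤ Q →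
          Flat Q (1 / (Z * (42 + 3 * Real.log Q))) s y → ∀ c₀ : ℤ,
          Almost s y κ c₀ (C' * (Real.log X / X)) (fun n => Generic P n →
            Holds (FewExceptions.S F C (W₀ ⊔ Subgroup.closure {w : ℚˣ | (w : ℚ) = (D : ℚ) * (n : ℚ) ^ r}) m)
              (FewExceptions.δ F C (W₀ ⊔ Subgroup.closure {w : ℚˣ | (w : ℚ) = (D : ℚ) * (n : ℚ) ^ r}) m) ε X W
              (Z)))) ∧
    (∃ P₀ : ℕ, ∀ p : ℕ, P₀ ≤ p → ∀ [Fact p.Prime] (K : ℝ), 1 ≤ K →
      (∀ R S : ℕ, K * Real.log p ^ 4 ≤ R → R < p → R ^ 2 ≤ S →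
        Flat p (1 / K) (((Icc 1 R).filter Nat.Prime) ×ˢ range S)
          (fun z => ((z.2 : ℕ) : ZMod p) * ((z.1 : ℕ) : ZMod p)⁻¹)) ∧
      (∀ (H : Subgroup (ZMod p)ˣ) (s : Finset (ZMod p)ˣ), (∀ u, u ∈ s ↔ u ∈ H) →
        5 * (p : ℝ) ^ (3 / 8 : ℝ) * K ^ 3 ≤ s.card → ∀ x : ZMod p, x ≠ 0 → Flat p (1 / K) s (fun u => x * (u : ZMod p))) ∧
      (∀ (A B : Finset (ZMod p)) (g k : ZMod p → ZMod p), (p : ℝ) * K ^ 2 ≤ A.card * B.card →
        Flat p (1 / K) (A ×ˢ B) (fun z => z.1 * z.2 + g z.1 + k z.2))) ∧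
    (∀ d : ℕ, 1 ≤ d → ∃ C : ℕ, ∀ p : ℕ, ∀ [Fact p.Prime] (f : Polynomial ℤ), f.natDegree = d →
      ¬ (p : ℤ) ∣ f.leadingCoeff → ∀ K : ℝ, 1 ≤ K → C * K ^ C ≤ p → ∀ x : ℕ, C * K ^ C * p ≤ (x : ℝ) ^ d →
      Flat p (1 / K) (range x) (fun n => ((f.eval (n : ℤ) : ℤ) : ZMod p))) := by
  classical
  refine ⟨?_, ?_, fun d hd => ?_⟩
  · obtain ⟨W, hW, H⟩ := Pool.Agent.N384.MQ.mq_dat
    refine ⟨W, hW, fun κ hκ => ⟨fun q _ A m hm D hD ε hε => ?_, fun F _ _ C W₀ m D r hC hW₀ hm hr hrm ε hε => ?_⟩⟩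
    · have hfD : NeZero (Pool.Agent.H981R3.LN2.fD q D) := ⟨Pool.Agent.H981R3.LN2.fD_ne hD⟩
      obtain ⟨C, X₀, _, _, h⟩ := H κ hκ (Pool.Agent.H981R3.LN2.dLen2 q A m (by omega) D hD) ε hε
      refine ⟨C, X₀, fun X hX ι Q _ s y Z hZ hZq hfl c₀ => ?_⟩
      refine almost_of (h X hX ι Q s y _ Z (fam_of hZ hZq hfl) c₀) fun n hn x hx1 hx2 => ?_
      have h5 := hn x hx1 hx2
      have e : EntangledOnAverage.S q A m (D * n ^ 2) x =
          cntZ (Pool.Agent.H981R3.LN2.dLen2 q A m (by omega) D hD) n x := by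
        unfold cntZ Pool.Agent.H386R2.Artin.PP EntangledOnAverage.S
        rw [filter_filter]
        apply congrArg Finset.card
        apply Finset.filter_congr_decidable _ _ _ |>.symm.trans
        apply Finset.filter_congr
        intro p _
        simp only [Pool.Agent.H981R3.LN2.dLen2, Int.cast_mul, Int.cast_pow]
        rfl
      rw [e, EntangledOnAverage.δ_eq q A m D]
      exact h5
    · obtain ⟨d, hd⟩ := Pool.Agent.W171.LG.coreR F C W₀ m D hC hW₀ hm.ne' hr hrm
      obtain ⟨P0, x0, hcore⟩ := hd ε hε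
      obtain ⟨C', X₀, _, _, h⟩ := H κ hκ d (ε / 2) (by positivity)
      refine ⟨C', P0, X₀ + x0, fun X hX ι Q _ s y Z hZ hZq hfl c₀ => ?_⟩
      refine almost_of (h X (by omega) ι Q s y _ Z (fam_of hZ hZq hfl) c₀) fun n hn hgen x hx1 hx2 => ?_
      obtain ⟨hn0, p, hp, hpP, hpn, hp2⟩ := hgen
      obtain ⟨n', rfl⟩ : ∃ n' : ℕ, n = n' := ⟨n.toNat, (Int.toNat_of_nonneg hn0.le).symm⟩
      have hn0' : n' ≠ 0 := by omega
      have hG : Pool.Agent.W171.LG.Gen P0 n' := ⟨p, hp, hpP, by exact_mod_cast hpn, fun h => hp2 (by exact_mod_cast h)⟩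
      by_contra hcon
      push Not at hcon
      have h5 := hn x hx1 hx2
      rw [cntZ_nat] at h5
      rw [Int.cast_natCast, Pool.Agent.W171.LG.gp_eqR W₀ D r hn0'] at hcon
      have h6 := hcore n' hn0' hG x (by omega) hcon
      linarith
  · obtain ⟨P₀, h0⟩ := Pool.Agent.N384.MQ.flatK_quot
    exact ⟨P₀, fun p hp _ K hK => ⟨fun R S => h0 p hp K hK R S,
      fun H s hs hc x hx => Pool.Agent.N384.MQ.flatK_coset p H s hs K hK hc x hx,
      fun A B g k hAB => Pool.Agent.N384.MQ.flatK_prod p A B g k K hK hAB⟩⟩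
  · exact Pool.Agent.N384.MQ.flatK_poly d hd

end Pool.Agent.Results.MP_48b1c3_nt.ResidueFamilies
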