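import Pool.Agent.N39.RW.ArtB

set_option autoImplicit false

/-!
# Elements of the sets of Lenstra in short windows, with a bounded number of exceptions

For a proportion of the integers `n` of infinitely many dyadic intervals, all windows around `n` of length
`≥ K (log n) ^ 2` contain the expected order of magnitude (for primes `q` such that `q - 1` has no small odd prime
factor) of elements `q` of the set `S(F, C, W, κ)`, `F` cyclotomic, `C = {σ_a}`.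
-/

namespace Pool.Agent.Results.MP_48b1c3_nt.ShortWindows

/-- The set `S(F, C, W, κ)` for the `m`-th cyclotomic field `F` and `C = {σ_a}`: primes
`q ≡ a mod m` at which all elements of `W` are units, such that the index of the image of `W` in
`(ℤ/q)ˣ` divides `κ`. -/
def InS (m a κ : ℕ) (W : Subgroup ℚˣ) (q : ℕ) : Prop :=
  q.Prime ∧ q ≡ a [MOD m] ∧ (∀ w ∈ W, padicValRat q (w : ℚ) = 0) ∧
    (Subgroup.closure {u : (ZMod q)ˣ | ∃ w ∈ W, (((w : ℚ).num : ℤ) : ZMod q) =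
      (u : ZMod q) * (((w : ℚ).den : ℕ) : ZMod q)}).index ∣ κ

/-- The elements `q` of `S(F, C, W, κ)` in `(u, v]` such that `q < l ^ R` for every odd prime factor `l` of `q - 1`. -/
def El (R m a κ : ℕ) (W : Subgroup ℚˣ) (u v : ℕ) : Set ℕ :=
  {q : ℕ | u < q ∧ q ≤ v ∧ InS m a κ W q ∧ ∀ l : ℕ, l.Prime → l ∣ q - 1 → l ≠ 2 → q < l ^ R}

/-- There are `c, K, μ > 0` such that for infinitely many `X` at least `μ X` of the integers `n` with
`X < n ≤ 2 X` are regular: every interval `(u, v]` with `u ≤ n ≤ v` and `K (log n) ^ 2 ≤ v - u ≤ n` contains at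
least `c (v - u) / (log n) ^ 2` elements of `S(F, C, W, κ)` (of the kind described in `El`). -/
def Windows (R m a κ : ℕ) (W : Subgroup ℚˣ) : Prop :=
  ∃ c K μ : ℝ, 0 < c ∧ 0 < K ∧ 0 < μ ∧ ∀ A : ℕ, ∃ X : ℕ, A ≤ X ∧
    μ * X ≤ ({n : ℕ | X < n ∧ n ≤ 2 * X ∧ ∀ u v : ℕ, u ≤ n → n ≤ v →
      K * Real.log n ^ 2 ≤ (v : ℝ) - u → (v : ℝ) - u ≤ n →
        c * ((v : ℝ) - u) / Real.log n ^ 2 ≤ ((El R m a κ W u v).ncard : ℝ)}.ncard : ℝ)

/-- the rank of `V` is at least `R` -/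
def RankGE (R : ℕ) (V : Subgroup ℚˣ) : Prop :=
  ∃ b : Fin R → ℚˣ, (∀ j, b j ∈ V) ∧ ∀ e : Fin R → ℤ, ∏ j, b j ^ e j = 1 → ∀ j, e j = 0

theorem result : ∃ R : ℕ, ∀ (m a κ h : ℕ) (G : Set (Subgroup ℚˣ)), 0 < m → a.Coprime m → 0 < κ → 1 ≤ h →
    (∀ l : ℕ, l.Prime → l ∣ m → l ≠ 2 → ¬ a ≡ 1 [MOD l]) →
    (∀ W ∈ G, W.FG ∧
      ((∃ N : ℕ, ∀ q : ℕ, N < q → q.Prime → q ≡ a [MOD m] →
          ∃ w ∈ W, ¬ IsSquare (((w : ℚ).num * (w : ℚ).den : ℤ) : ZMod q)) ∨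
        (2 ^ (κ.factorization 2 + 1) ∣ m ∧ ¬ a ≡ 1 [MOD 2 ^ (κ.factorization 2 + 1)]))) →
    (∀ J : Finset (Subgroup ℚˣ), (J : Set (Subgroup ℚˣ)) ⊆ G → J.card = h → RankGE R (sSup (J : Set (Subgroup ℚˣ)))) →
    {W ∈ G | ¬ Windows R m a κ W}.encard ≤ (2 * (R * (h - 1)) : ℕ) := by
  classical
  obtain ⟨R, hR2, hWIN⟩ := Pool.Agent.N39.RW.WIN_grp
  refine ⟨R, fun m a κ h G hm ham hκ hh ha1 hG hJ => ?_⟩
  by_contra hcon
  push Not at hcon
  obtain ⟨V, hVS, hV⟩ := Set.exists_subset_encard_eq (Order.add_one_le_of_lt hcon)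
  have hVfin : V.Finite := Set.finite_of_encard_eq_coe (k := 2 * (R * (h - 1)) + 1) (by rw [hV]; push_cast; rfl)
  obtain ⟨T, rfl⟩ := hVfin.exists_finset_coe
  rw [Set.encard_coe_eq_coe_finsetCard] at hV
  have hTc : T.card = 2 * (R * (h - 1)) + 1 := by exact_mod_cast hV
  have hTS : ∀ W ∈ T, W ∈ G ∧ ¬ Windows R m a κ W := fun W hW => hVS hW
  -- the bounds for nonresidues
  have hnr : ∀ W : Subgroup ℚˣ, ∃ N : ℕ, W ∈ T → (∀ q : ℕ, N < q → q.Prime → q ≡ a [MOD m] →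
      (∃ w ∈ W, ¬ IsSquare (((w : ℚ).num * (w : ℚ).den : ℤ) : ZMod q)) ∨
      ¬ 2 ^ (κ.factorization 2 + 1) ∣ q - 1) := by
    intro W
    by_cases hW : W ∈ T
    · rcases (hG W (hTS W hW).1).2 with ⟨N, hN⟩ | ⟨h1, h2⟩
      · exact ⟨N, fun _ q hq hqp hqa => Or.inl (hN q hq hqp hqa)⟩
      · refine ⟨0, fun _ q _ hqp hqa => Or.inr fun h3 => h2 ?_⟩
        have h4 : q ≡ 1 [MOD 2 ^ (κ.factorization 2 + 1)] :=
          ((Nat.modEq_iff_dvd' hqp.one_lt.le).2 h3).symm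
        exact (hqa.of_dvd h1).symm.trans h4
    · exact ⟨0, fun h => absurd h hW⟩
  choose NN hNN using hnr
  obtain ⟨W, hW, c₁, Kw, μ, hc₁, hKw, hμ, hX⟩ := hWIN m a h (T.sup NN + 2) hm ham ha1 hh T (by omega)
    (fun W hW => (hG W (hTS W hW).1).1)
    (fun J hJT hJc => hJ J (fun W hW => (hTS W (hJT hW)).1) hJc)
  refine (hTS W hW).2 ⟨c₁, Kw, μ, hc₁, by linarith, hμ, fun A => ?_⟩
  obtain ⟨X, hAX, hX⟩ := hX (A + 2)
  have hX2 : (2 : ℝ) ≤ X := by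
    have : 2 ≤ X := by omega
    exact_mod_cast this
  have hlX : 0 < Real.log X := Real.log_pos (by linarith)
  refine ⟨X, by omega, hX.trans ?_⟩
  rw [← Set.ncard_coe_finset]
  refine Nat.cast_le.2 (Set.ncard_le_ncard ?_ ?_)
  · intro n hn
    rw [Finset.mem_coe, Finset.mem_filter, Finset.mem_Ioc] at hn
    obtain ⟨⟨hn1, hn2⟩, hn3⟩ := hn
    refine ⟨hn1, hn2, fun u v hu hv hK hvn => ?_⟩
    have hXn : (X : ℝ) ≤ n := by exact_mod_cast hn1.le
    have hln : Real.log X ≤ Real.log n := Real.log_le_log (by linarith) hXn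
    have hsq : Real.log X ^ 2 ≤ Real.log n ^ 2 := pow_le_pow_left₀ hlX.le hln 2
    have hvu : 0 ≤ (v : ℝ) - u := by
      have : (u : ℝ) ≤ v := by exact_mod_cast hu.trans hv
      linarith
    have h1 := hn3 u v hu hv ((mul_le_mul_of_nonneg_left hsq (by linarith)).trans hK) hvn
    have h2 : c₁ * ((v : ℝ) - u) / Real.log n ^ 2 ≤ c₁ * ((v : ℝ) - u) / Real.log X ^ 2 :=
      div_le_div_of_nonneg_left (by positivity) (by positivity) hsq
    refine h2.trans (h1.trans ?_)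
    unfold Pool.Agent.W123.RP.co
    rw [← Set.ncard_coe_finset]
    refine Nat.cast_le.2 (Set.ncard_le_ncard ?_ ?_)
    · intro p hp
      simp only [Finset.coe_filter, Finset.mem_Ioc, Set.mem_setOf_eq] at hp
      obtain ⟨⟨hp1, hp2⟩, hpp, hpN, hpa, hWu, hodd, hq⟩ := hp
      have h6 : NN W ≤ T.sup NN := Finset.le_sup hW
      refine ⟨hp1, hp2, ⟨hpp, hpa, Pool.Agent.Y855.val_zero _ hpp W hWu, ?_⟩, hq⟩
      exact Pool.Agent.Y855.index_dvd _ hpp (by omega) W hWu hodd κ (hNN W hW _ (by omega) hpp hpa)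
    · apply (Finset.finite_toSet (Finset.Ioc u v)).subset
      intro q hq
      rw [Finset.mem_coe, Finset.mem_Ioc]
      exact ⟨hq.1, hq.2.1⟩
  · apply (Finset.finite_toSet (Finset.Ioc X (2 * X))).subset
    intro n hn
    rw [Finset.mem_coe, Finset.mem_Ioc]
    exact ⟨hn.1, hn.2.1⟩

end Pool.Agent.Results.MP_48b1c3_nt.ShortWindows
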